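import Pool.Agent.Helper10_MWKP.KSW

/-!
# Row KDD of the table mwkp: dead words depend only on the numbers of letters modulo `n`
-/

namespace Pool.Agent.MWKP.H10

open Pool.Agent.Helper14_MV Pool.Agent.Helper2_MV Pool.Agent.MWK Pool.Agent.MWKP

theorem split_two {P : List ℕ} {x : ℕ} (h : 2 ≤ P.count x) :
    ∃ P1 c : List ℕ, P = P1 ++ x :: c ∧ x ∈ P1 := by
  obtain ⟨a, b, rfl⟩ := List.append_of_mem (List.count_pos_iff.mp (show 0 < P.count x by omega))
  by_cases hb : x ∈ b
  · obtain ⟨b1, b2, rfl⟩ := List.append_of_mem hb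
    exact ⟨a ++ x :: b1, b2, by simp, by simp⟩
  · refine ⟨a, b, rfl, ?_⟩
    rw [List.count_append, List.count_cons_self, List.count_eq_zero_of_not_mem hb] at h
    exact List.count_pos_iff.mp (by omega)

theorem dead_pow {n : ℕ} {θ : FIC} (H : Kn n θ) {P : List ℕ} {x : ℕ} (h : 2 ≤ P.count x)
    (Q : List ℕ) : RR θ (P ++ (List.replicate n x ++ Q)) (P ++ Q) := by
  obtain ⟨P1, c, rfl, hx⟩ := split_two h
  have h1 : RR θ (P1 ++ x :: (c ++ Q)) (P1 ++ (List.replicate (n + 1) x ++ (c ++ Q))) :=
    grow H hx _
  have h2 : RR θ (P1 ++ x :: (c ++ (List.replicate n x ++ Q)))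
      (P1 ++ (List.replicate (n + 1) x ++ (c ++ (List.replicate n x ++ Q)))) := grow H hx _
  have h3 : RR θ (P1 ++ (List.replicate (n + 1) x ++ (c ++ Q)))
      (P1 ++ (List.replicate (n + 1) x ++ (c ++ (List.replicate n x ++ Q)))) := by
    have h := RR.sub (fun d => if d = 0 then [x] else if d = 1 then c else []) H.e
    rw [List.flatMap_cons, List.flatMap_cons, List.flatMap_cons, List.flatMap_nil,
      List.flatMap_cons, List.flatMap_cons, List.flatMap_cons,
      rep_fm (fun d => if d = 0 then [x] else if d = 1 then c else []) 0 x n (by simp)] at h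
    simp only [if_true, one_ne_zero, if_false] at h
    have h4 := RR.append (RR.append (RR.refl (P1 ++ List.replicate (n - 1) x)) h) (RR.refl Q)
    have e : List.replicate (n + 1) x = List.replicate (n - 1) x ++ [x, x] := by
      have h5 : n + 1 = (n - 1) + 2 := by have := H.pos; omega
      rw [h5, List.replicate_add]; rfl
    rw [e]
    simpa [List.append_assoc] using h4
  have h5 := θ.trans h1 (θ.trans h3 (RR.symm h2))
  have h6 := RR.symm h5
  simpa [List.append_assoc] using h6

theorem perm_dead (hS : KswStmt) {n : ℕ} {θ : FIC} (H : Kn n θ) {D D' : List ℕ}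
    (h : D.Perm D') : ∀ P Q : List ℕ, (∀ l ∈ D, l ∈ P) → RR θ (P ++ (D ++ Q)) (P ++ (D' ++ Q)) := by
  induction h with
  | nil => intro P Q _; exact RR.refl _
  | cons x h ih =>
    intro P Q hP
    have := ih (P ++ [x]) Q (fun l hl => by
      have := hP l (List.mem_cons_of_mem _ hl)
      simp [this])
    simpa [List.append_assoc] using this
  | swap x y l =>
    intro P Q hP
    have := hS n θ H P y x (l ++ Q) (hP y (by simp)) (hP x (by simp))
    simpa using this
  | trans h1 h2 ih1 ih2 =>
    intro P Q hP
    exact θ.trans (ih1 P Q hP) (ih2 P Q (fun l hl => hP l (h1.mem_iff.mpr hl)))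

theorem kill (hS : KswStmt) {n : ℕ} {θ : FIC} (H : Kn n θ) : ∀ (N : ℕ) (E P Q : List ℕ),
    E.length ≤ N → (∀ l ∈ E, 2 ≤ P.count l) → (∀ l, n ∣ E.count l) →
      RR θ (P ++ (E ++ Q)) (P ++ Q) := by
  intro N
  induction N with
  | zero =>
    intro E P Q hN _ _
    have : E = [] := List.length_eq_zero_iff.mp (by omega)
    rw [this]
    exact RR.refl _
  | succ N ih =>
    intro E P Q hN hd hn
    cases hE : E with
    | nil => exact RR.refl _
    | cons x E' =>
      rw [← hE]
      have hx : x ∈ E := by rw [hE]; simp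
      have hc : n ≤ E.count x := Nat.le_of_dvd (List.count_pos_iff.mpr hx) (hn x)
      obtain ⟨E'', hp⟩ := (List.replicate_sublist_iff.mpr hc).exists_perm_append
      have h1 := perm_dead hS H hp P Q (fun l hl => List.count_pos_iff.mp (by
        have := hd l hl; omega))
      have h2 := dead_pow H (hd x hx) (E'' ++ Q)
      have hpos := H.pos
      have hlen := hp.length_eq
      rw [List.length_append, List.length_replicate] at hlen
      have h3 := ih E'' P Q (by omega) (fun l hl => hd l (hp.mem_iff.mpr (by simp [hl])))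
        (fun l => by
          have h4 := hn l
          rw [hp.count_eq, List.count_append, List.count_replicate] at h4
          split at h4
          · exact (Nat.dvd_add_right (dvd_refl n)).mp h4
          · simpa using h4)
      rw [List.append_assoc] at h1
      exact θ.trans h1 (θ.trans h2 h3)

theorem count_pw (k : ℕ) (X : List ℕ) (l : ℕ) : (pw k X).count l = k * X.count l := by
  induction k with
  | zero => simp [pw]
  | succ k ih =>
    rw [pw, List.replicate_succ, List.flatten_cons, List.count_append]
    rw [pw] at ih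
    rw [ih, Nat.succ_mul]; omega

theorem mem_pw {k : ℕ} {X : List ℕ} {l : ℕ} (h : l ∈ pw k X) : l ∈ X := by
  rw [pw, List.mem_flatten] at h
  obtain ⟨Y, hY, hl⟩ := h
  rw [List.mem_replicate] at hY
  rw [← hY.2]; exact hl

theorem kdd (hS : KswStmt) : KddStmt := by
  intro n θ H P D D' Q hD hD' hc
  have hpos := H.pos
  have h1 : RR θ ((P ++ D) ++ ((pw (n - 1) D ++ D') ++ Q)) ((P ++ D) ++ Q) := by
    refine kill hS H _ _ _ _ le_rfl ?_ ?_
    · intro l hl
      rw [List.count_append]
      rcases List.mem_append.mp hl with hl | hl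
      · have := hD l (mem_pw hl); omega
      · have := hD' l hl; omega
    · intro l
      rw [List.count_append, count_pw]
      apply (Nat.modEq_zero_iff_dvd).mp
      have h3 : (n - 1) * D.count l + D'.count l ≡ (n - 1) * D.count l + D.count l [MOD n] :=
        Nat.ModEq.add_left _ (hc l).symm
      have h4 : (n - 1) * D.count l + D.count l = n * D.count l := by
        obtain ⟨k, rfl⟩ : ∃ k, n = k + 1 := ⟨n - 1, by omega⟩
        rw [Nat.add_sub_cancel, Nat.succ_mul]
      rw [h4] at h3
      exact h3.trans ((Nat.modEq_zero_iff_dvd).mpr (dvd_mul_right _ _))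
  have h2 : RR θ (P ++ ((D ++ pw (n - 1) D) ++ (D' ++ Q))) (P ++ (D' ++ Q)) := by
    refine kill hS H _ _ _ _ le_rfl ?_ ?_
    · intro l hl
      rcases List.mem_append.mp hl with hl | hl
      · exact hD l hl
      · exact hD l (mem_pw hl)
    · intro l
      rw [List.count_append, count_pw]
      have h4 : D.count l + (n - 1) * D.count l = n * D.count l := by
        obtain ⟨k, rfl⟩ : ∃ k, n = k + 1 := ⟨n - 1, by omega⟩
        rw [Nat.add_sub_cancel, Nat.succ_mul]; omega
      rw [h4]
      exact dvd_mul_right _ _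
  have e : (P ++ D) ++ ((pw (n - 1) D ++ D') ++ Q) = P ++ ((D ++ pw (n - 1) D) ++ (D' ++ Q)) := by
    simp [List.append_assoc]
  rw [e] at h1
  have h3 := θ.trans (RR.symm h1) h2
  rw [List.append_assoc] at h3
  rw [List.append_assoc, List.append_assoc]
  exact h3

end Pool.Agent.MWKP.H10
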