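import Pool.Agent.MWKP.Stmts

/-!
# Rows KSW and KDD of the table mwkp
-/

namespace Pool.Agent.MWKP.H10

open Pool.Agent.Helper14_MV Pool.Agent.Helper2_MV Pool.Agent.MWK Pool.Agent.MWKP

theorem rep_fm (g : ℕ → List ℕ) (x a k : ℕ) (h : g x = [a]) :
    (List.replicate k x).flatMap g = List.replicate k a := by
  induction k with
  | zero => simp
  | succ k ih => rw [List.replicate_succ, List.flatMap_cons, ih, h, List.replicate_succ]; rfl

/-- a letter which has occurred may be replaced by its power -/
theorem grow {n : ℕ} {θ : FIC} (H : Kn n θ) {P : List ℕ} {a : ℕ} (ha : a ∈ P) (Q : List ℕ) :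
    RR θ (P ++ a :: Q) (P ++ (List.replicate (n + 1) a ++ Q)) := by
  obtain ⟨P1, P2, rfl⟩ := List.append_of_mem ha
  have h1 := RR.sub (fun c => if c = 0 then [a] else if c = 1 then P2 else []) H.g
  rw [List.flatMap_cons, List.flatMap_cons, List.flatMap_cons, List.flatMap_nil,
    List.flatMap_cons, List.flatMap_cons,
    rep_fm (fun c => if c = 0 then [a] else if c = 1 then P2 else []) 0 a (n + 1) (by simp)] at h1
  simp only [if_true, one_ne_zero, if_false] at h1
  have h2 := RR.append (RR.append (RR.refl P1) h1) (RR.refl Q)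
  simpa [List.append_assoc] using h2

theorem ksw : KswStmt := by
  intro n θ H P a b Q ha hb
  have h1 : RR θ (P ++ a :: b :: Q) (P ++ (List.replicate (n + 1) a ++ b :: Q)) :=
    grow H ha (b :: Q)
  have h2 : RR θ (P ++ (List.replicate (n + 1) a ++ b :: Q))
      (P ++ (List.replicate (n + 1) a ++ (List.replicate (n + 1) b ++ Q))) := by
    have := grow (P := P ++ List.replicate (n + 1) a) (a := b) H (by simp [hb]) Q
    simpa [List.append_assoc] using this
  have h3 : RR θ (P ++ b :: a :: Q) (P ++ (List.replicate (n + 1) b ++ a :: Q)) :=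
    grow H hb (a :: Q)
  have h4 : RR θ (P ++ (List.replicate (n + 1) b ++ a :: Q))
      (P ++ (List.replicate (n + 1) b ++ (List.replicate (n + 1) a ++ Q))) := by
    have := grow (P := P ++ List.replicate (n + 1) b) (a := a) H (by simp [ha]) Q
    simpa [List.append_assoc] using this
  have h5 : RR θ (P ++ (List.replicate (n + 1) a ++ (List.replicate (n + 1) b ++ Q)))
      (P ++ (List.replicate (n + 1) b ++ (List.replicate (n + 1) a ++ Q))) := by
    have h := RR.sub (fun c => if c = 0 then [a] else if c = 1 then [b] else []) H.c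
    rw [List.flatMap_append, List.flatMap_append,
      rep_fm (fun c => if c = 0 then [a] else if c = 1 then [b] else []) 0 a (n + 1) (by simp),
      rep_fm (fun c => if c = 0 then [a] else if c = 1 then [b] else []) 1 b (n + 1) (by simp)] at h
    have h2 := RR.append (RR.append (RR.refl P) h) (RR.refl Q)
    simpa [List.append_assoc] using h2
  exact θ.trans (θ.trans h1 h2) (θ.trans h5 (RR.symm (θ.trans h3 h4)))

end Pool.Agent.MWKP.H10
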