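import Pool.Agent.MWKP.StmtsN

/-!
# Row PWN of the table mwkp
-/

namespace Pool.Agent.MWKP.H10

open Pool.Agent.Helper14_MV Pool.Agent.Helper2_MV Pool.Agent.MWKP

theorem rep_fm' (g : ℕ → List ℕ) (x a k : ℕ) (h : g x = [a]) :
    (List.replicate k x).flatMap g = List.replicate k a := by
  induction k with
  | zero => simp
  | succ k ih => rw [List.replicate_succ, List.flatMap_cons, ih, h, List.replicate_succ]; rfl

theorem pwn_step {n : ℕ} {β : FIC} (h : RR β [0, 0] (List.replicate (n + 2) 0)) (c i : ℕ)
    (hi : 2 ≤ i) : RR β (List.replicate i c) (List.replicate (i + n) c) := by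
  have h1 := RR.sub (fun d => if d = 0 then [c] else []) h
  rw [rep_fm' _ 0 c (n + 2) (by simp)] at h1
  have h2 := RR.append h1 (RR.refl (List.replicate (i - 2) c))
  have e1 : List.replicate i c = [c, c] ++ List.replicate (i - 2) c := by
    have : i = 2 + (i - 2) := by omega
    conv_lhs => rw [this, List.replicate_add]
    rfl
  have e2 : List.replicate (i + n) c = List.replicate (n + 2) c ++ List.replicate (i - 2) c := by
    rw [List.replicate_append_replicate]
    congr 1
    omega
  rw [e1, e2]
  simpa using h2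

theorem pwn_iter {n : ℕ} {β : FIC} (h : RR β [0, 0] (List.replicate (n + 2) 0)) (c i : ℕ)
    (hi : 2 ≤ i) (k : ℕ) : RR β (List.replicate i c) (List.replicate (i + n * k) c) := by
  induction k with
  | zero => exact RR.refl _
  | succ k ih =>
    have := pwn_step h c (i + n * k) (by omega)
    rw [Nat.mul_succ, ← Nat.add_assoc]
    exact β.trans ih this

theorem pwn_le {n : ℕ} {β : FIC} (h : RR β [0, 0] (List.replicate (n + 2) 0)) (c i j : ℕ)
    (hi : 2 ≤ i) (hij : i ≤ j) (hm : i ≡ j [MOD n]) :
    RR β (List.replicate i c) (List.replicate j c) := by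
  obtain ⟨k, hk⟩ := (Nat.modEq_iff_dvd' hij).mp hm
  have e : j = i + n * k := by omega
  rw [e]
  exact pwn_iter h c i hi k

theorem pwn : PwnStmt := by
  intro n β h c i j hi hj hm
  rcases Nat.le_total i j with h1 | h1
  · exact pwn_le h c i j hi h1 hm
  · exact RR.symm (pwn_le h c j i hj h1 hm.symm)

end Pool.Agent.MWKP.H10
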